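import Pool.Agent.Run7.h450.CE.Cut
import Pool.Agent.Run7.h450.CE.TN
import Pool.Agent.Run7.h842.CE.CS
import Pool.Agent.Run7.h842.CE.EIG
import Pool.Agent.Run7.h423.CE.PSI
import Pool.Agent.Run7.h423.CE.STEP
import Pool.Agent.Run7.h929.CE.ON
import Pool.Agent.Run7.h929.CE.RON
import Pool.Agent.Run7.h519.CE.OZ1
import Pool.Agent.Run7.h519.CE.TOS
import Pool.Agent.Run7.h890.CE.OZ2
import Pool.Agent.Run7.h378.CE.INI
import Pool.Agent.Run7.h378.CE.UP
import Pool.Agent.Run7.h559.CE.GOOD
import Pool.Agent.Run7.h733.CE.GR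
import Pool.Agent.Run7.h733.CE.WRD
import Pool.Agent.Run7.h592.CE.NZ
import Pool.Agent.Run7.h592.CE.LOW
import Pool.Agent.Run7.h592.CE.LO
import Pool.Agent.Run7.h980.CE.CNT

/-!
# MP_e09b77_an: the coloured entropy of the canonical map of a Cuntz-Krieger algebra

`ht_nuc(θ_A) = log r(A)` for every irreducible 0/1 matrix `A`. Pieces by helper378, helper423,
helper450, helper519, helper559, helper592, helper682, helper733, helper842, helper890, helper929,
helper980.
-/

set_option autoImplicit false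

namespace Pool.Agent.Results.MP_e09b77_an.CanonicalMapEntropy

open Run7.h450.CE

/-- For every irreducible matrix `A` over `{0,1}`, every nonzero unital C*-algebra `B` generated by a
Cuntz-Krieger `A`-family `S` (in particular `B = O_A`) and every `d` such that `B` has nuclear
dimension at most `d` (in particular `d` = nuclear dimension of `B`), the coloured entropy of the
canonical map `x ↦ ∑ S_i x S_i*` is the logarithm of the spectral radius of `A`. -/
theorem result (N : ℕ) (A : Matrix (Fin N) (Fin N) ℕ) (hA : ZeroOne A) (hirr : Irred A)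
    (B : Type) [CStarAlgebra B] [Nontrivial B] (S : Fin N → B) (hS : CK A S) (d : ℕ)
    (hd : NucDimLE d B) :
    htNuc d (theta S) = ((Real.log (rA A) : ℝ) : EReal) := by
  have cs := Run7.h842.CE.t_CS
  have psi := Run7.h423.CE.t_PSI cs
  have ron := Run7.h929.CE.t_RON Run7.h929.CE.t_ON
  have cut := t_CUT ron cs psi Run7.h842.CE.t_EIG
  have ini := Run7.h378.CE.t_INI Run7.h519.CE.t_OZ1 Run7.h890.CE.t_OZ2 cut
  have up := Run7.h378.CE.t_UP ini (t_TN psi) Run7.h519.CE.t_TOS Run7.h423.CE.t_STEP
    Run7.h559.CE.t_GOOD Run7.h733.CE.t_GR1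
  have low := Run7.h592.CE.t_LOW Run7.h980.CE.t_CNT Run7.h592.CE.t_NZ
  have lo := Run7.h592.CE.t_LO low Run7.h733.CE.t_WRD Run7.h733.CE.t_GR2
  exact fin up lo N A B S hA hirr hS d hd

end Pool.Agent.Results.MP_e09b77_an.CanonicalMapEntropy
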